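import Pool.Agent.N844.PL.Gen

/-!
The theorems of `N844/PL/{Ker,Bc,Gen}.lean` over infinite fields of characteristic different from two.
-/

set_option autoImplicit false
set_option linter.all false

open Matrix Polynomial

namespace Pool.Agent.N844.PLF

open Pool.Agent.N844.PL hiding vertex loc_map normal
open Pool.Agent.N844.QR (Sr bs bs_apply tau tau_pow tau_top gA gB cm det_g hom po_eval es ro ro_eval
  ro_eval_zero IsPen)

section ker

variable {k : Type} [Field k] {g : ℕ} {f : k[X]} (hf : f.Monic) (hd : f.natDegree = 2 * g + 1)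

include hf hd in
theorem vertex [Infinite k] (h2c : (2 : k) ≠ 0) (A B : Matrix (Jx g) (Jx g) k) (hA : A.IsSymm) (hB : B.IsSymm) (m : k)
    (hm : m ≠ 0)
    (hdisc : ∀ x z : k, (-1) ^ (g + 1) * (x • A - z • B).det = m ^ 2 * (z * hom g f x z)) :
    ∃ e : Jx g → k, A *ᵥ e = 0 ∧ e ⬝ᵥ (B *ᵥ e) ≠ 0 := by
  classical
  by_contra hcon
  push Not at hcon
  have hdet : A.det = 0 := by
    have h := hdisc 1 0
    rw [zero_smul, sub_zero, one_smul, zero_mul, mul_zero] at h
    exact (mul_eq_zero.1 h).resolve_left (pow_ne_zero _ (neg_ne_zero.2 one_ne_zero))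
  obtain ⟨e, he0, he⟩ := exists_mulVec_eq_zero_iff.2 hdet
  let K : Submodule k (Jx g → k) := LinearMap.ker A.mulVecLin
  have hK : ∀ y, y ∈ K ↔ A *ᵥ y = 0 := fun y => Iff.rfl
  have hpol := polar h2c B hB K (fun y hy => hcon y ((hK y).1 hy))
  -- `B e` is in the image of `A`
  have him : B *ᵥ e ∈ LinearMap.range A.mulVecLin := by
    by_contra hv
    obtain ⟨c, h1, h2⟩ := sep_fun _ _ hv
    apply h2
    refine hpol c ?_ e he
    rw [hK]
    funext i
    have h3 := h1 (A *ᵥ Pi.single i 1) ⟨Pi.single i 1, rfl⟩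
    rw [dotProduct_mulVec, ← mulVec_transpose, hA.eq, dotProduct_single, mul_one] at h3
    exact h3
  obtain ⟨w, hw⟩ := him
  have hw' : A *ᵥ w = B *ᵥ e := hw
  -- over the polynomials
  let M : Matrix (Jx g) (Jx g) k[X] := A.map C - (X : k[X]) • B.map C
  have hMdet : M.det = C ((-1) ^ (g + 1) * m ^ 2) * (X * ro g f) := by
    apply Polynomial.funext
    intro z
    have h1 : M.det.eval z = ((1 : k) • A - z • B).det := by
      rw [← coe_evalRingHom, RingHom.map_det]
      congr 1
      ext i j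
      simp [M]
      ring
    have h2 := hdisc 1 z
    rw [eval_mul, eval_mul, eval_C, eval_X, ro_eval, h1]
    have h3 : ((-1 : k) ^ (g + 1)) * (-1) ^ (g + 1) = 1 := by
      rw [← mul_pow]; simp
    calc ((1 : k) • A - z • B).det = ((-1 : k) ^ (g + 1) * (-1) ^ (g + 1)) *
          ((1 : k) • A - z • B).det := by rw [h3, one_mul]
      _ = (-1) ^ (g + 1) * ((-1) ^ (g + 1) * ((1 : k) • A - z • B).det) := by ring
      _ = _ := by rw [h2]; ring
  have hmap : ∀ (D : Matrix (Jx g) (Jx g) k) (y : Jx g → k),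
      D.map C *ᵥ (fun i => C (y i)) = fun i => (C ((D *ᵥ y) i) : k[X]) := by
    intro D y
    funext i
    simp only [mulVec, dotProduct, map_apply, map_sum, map_mul]
  have hMv : ∀ y : Jx g → k, M *ᵥ (fun i => C (y i)) =
      fun i => C ((A *ᵥ y) i) - X * C ((B *ᵥ y) i) := by
    intro y
    show (A.map C - (X : k[X]) • B.map C) *ᵥ (fun i => C (y i)) = _
    rw [sub_mulVec, smul_mulVec, hmap, hmap]
    funext i
    simp [Pi.sub_apply, Pi.smul_apply, smul_eq_mul]
  have hadj : ∀ y : Jx g → k[X], M.adjugate *ᵥ (M *ᵥ y) = M.det • y := by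
    intro y
    rw [mulVec_mulVec, adjugate_mul, smul_mulVec, one_mulVec]
  have h1 : (X : k[X]) • (M.adjugate *ᵥ fun i => C ((B *ᵥ e) i)) = -(M.det • fun i => C (e i)) := by
    rw [← hadj, hMv, he, ← mulVec_smul, ← mulVec_neg]
    congr 1
    funext i
    simp
  have h2 : (fun i => (C ((B *ᵥ e) i) : k[X])) = M *ᵥ (fun i => C (w i)) +
      (X : k[X]) • fun i => C ((B *ᵥ w) i) := by
    rw [hMv, hw']
    funext i
    simp
  rw [h2, mulVec_add, hadj, mulVec_smul, hMdet] at h1
  apply he0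
  funext i
  have h3 := congrFun h1 i
  simp only [Pi.smul_apply, Pi.add_apply, smul_eq_mul, Pi.neg_apply] at h3
  have h4 : (C ((-1) ^ (g + 1) * m ^ 2) * (X * ro g f)) * C (w i) +
      X * (M.adjugate *ᵥ fun i => C ((B *ᵥ w) i)) i =
      -(C ((-1) ^ (g + 1) * m ^ 2) * ro g f * C (e i)) := by
    apply mul_left_cancel₀ (X_ne_zero : (X : k[X]) ≠ 0)
    rw [h3]
    ring
  have h5 := congrArg (eval 0) h4
  simp only [eval_add, eval_mul, eval_X, eval_C, eval_neg, zero_mul, mul_zero, add_zero] at h5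
  have h6 : (ro g f).eval 0 = 1 := by
    have := ro_eval_zero hf hd (RingHom.id k)
    rwa [Polynomial.map_id] at this
  rw [h6, mul_one] at h5
  have h7 : (-1 : k) ^ (g + 1) * m ^ 2 ≠ 0 :=
    mul_ne_zero (pow_ne_zero _ (neg_ne_zero.2 one_ne_zero)) (pow_ne_zero 2 hm)
  exact (mul_eq_zero.1 (neg_eq_zero.1 h5.symm)).resolve_left h7

include hf hd in
theorem normal [Infinite k] (h2c : (2 : k) ≠ 0) (hi : Irreducible f) (A B : Matrix (Fin (2 * g + 2)) (Fin (2 * g + 2)) k)
    (m : k) (hm : m ≠ 0) (hpen : IsPen g f m A B) :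
    ∃ (h : k[X]) (c : k) (P : Matrix (Fin (2 * g + 2)) (Fin (2 * g + 2)) k), IsCoprime h f ∧
      IsSquare (Algebra.norm k (AdjoinRoot.mk f h)) ∧ c ≠ 0 ∧ P.det ≠ 0 ∧
      Pᵀ * A * P = c • quadA g f h ∧ Pᵀ * B * P = c • quadB g f h := by
  classical
  set AJ := A.submatrix (es g) (es g) with hAJ
  set BJ := B.submatrix (es g) (es g) with hBJ
  have sA : AJ.IsSymm := hpen.symA.submatrix _
  have sB : BJ.IsSymm := hpen.symB.submatrix _
  have hdisc : ∀ x z : k, (-1) ^ (g + 1) * (x • AJ - z • BJ).det = m ^ 2 * (z * hom g f x z) := by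
    intro x z
    rw [← hpen.disc x z]
    congr 1
    have e : x • AJ - z • BJ = (x • A - z • B).submatrix (es g) (es g) := rfl
    rw [e, det_submatrix_equiv_self]
  obtain ⟨e, he, hβ⟩ := vertex hf hd h2c AJ BJ sA sB m hm hdisc
  obtain ⟨U, A', B', hU, sA', sB', h1, h2⟩ := split AJ BJ sA sB e he hβ
  set β := e ⬝ᵥ (BJ *ᵥ e) with hβd
  obtain ⟨hA', hch, hlead⟩ := chpoly hf hd AJ BJ U A' B' m β hm hβ hdisc hU h1 h2
  obtain ⟨η₀, K, hK, h3, h4⟩ := krylov hf hd hi A' B' sA' sB' hA' hch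
  set η := β⁻¹ • η₀ with hη
  have hη0 : η₀ = β • η := by rw [hη, smul_smul, mul_inv_cancel₀ hβ, one_smul]
  obtain ⟨h, hh⟩ := AdjoinRoot.mk_surjective (g := f) η
  let PJ : Matrix (Jx g) (Jx g) k := U * fromBlocks K 0 0 1
  have hPA : PJᵀ * AJ * PJ = β • cA hf hd η := by
    have e1 : PJᵀ * AJ * PJ = (fromBlocks K 0 0 1)ᵀ * (Uᵀ * AJ * U) * fromBlocks K 0 0 1 := by
      show (U * fromBlocks K 0 0 1)ᵀ * AJ * (U * fromBlocks K 0 0 1) = _
      rw [transpose_mul]
      simp only [Matrix.mul_assoc]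
    rw [e1, h1, fromBlocks_transpose, fromBlocks_multiply, fromBlocks_multiply]
    unfold cA
    rw [fromBlocks_smul]
    congr 1
    · simp only [Matrix.mul_zero, Matrix.zero_mul, add_zero, transpose_zero]
      rw [h3, hη0, hA_smul]
    · simp
    · simp
    · simp
  have hPB : PJᵀ * BJ * PJ = β • cB hf hd η := by
    have e1 : PJᵀ * BJ * PJ = (fromBlocks K 0 0 1)ᵀ * (Uᵀ * BJ * U) * fromBlocks K 0 0 1 := by
      show (U * fromBlocks K 0 0 1)ᵀ * BJ * (U * fromBlocks K 0 0 1) = _
      rw [transpose_mul]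
      simp only [Matrix.mul_assoc]
    rw [e1, h2, fromBlocks_transpose, fromBlocks_multiply, fromBlocks_multiply]
    unfold cB
    rw [fromBlocks_smul]
    congr 1
    · simp only [Matrix.mul_zero, Matrix.zero_mul, add_zero, transpose_zero]
      rw [h4, hη0, hB_smul]
    · simp
    · simp
    · simp only [Matrix.mul_zero, Matrix.zero_mul, zero_add, transpose_one, Matrix.mul_one,
        Matrix.one_mul]
      ext i j
      have e2 : i = j := Subsingleton.elim _ _
      subst e2
      simp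
  have hPJ : PJ.det ≠ 0 := by
    show (U * fromBlocks K 0 0 1).det ≠ 0
    rw [det_mul, det_fromBlocks_zero₂₁, det_one, mul_one]
    exact mul_ne_zero hU hK
  have hdetA : (hA hf hd η₀).det = K.det ^ 2 * A'.det := by
    rw [← h3, det_mul, det_mul, det_transpose]
    ring
  have hnorm : Algebra.norm k η = (K.det * (U.det * m) / β ^ (g + 1)) ^ 2 := by
    have e1 := det_h hf hd η 1 0
    have e2 : hom g f 1 0 = 1 := by
      rw [← ro_eval]
      have := ro_eval_zero hf hd (RingHom.id k)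
      rwa [Polynomial.map_id] at this
    rw [zero_smul, sub_zero, one_smul, e2, one_mul] at e1
    have e3 : (hA hf hd η₀).det = β ^ (2 * g + 1) * (hA hf hd η).det := by
      rw [hη0, hA_smul, det_smul, Fintype.card_fin]
    have e4 : β ^ (2 * g + 2) * Algebra.norm k η = (K.det * (U.det * m)) ^ 2 := by
      rw [← e1, mul_pow, ← hlead]
      have e5 : β ^ (2 * g + 2) * ((-1) ^ g * (hA hf hd η).det) =
          (-1) ^ g * β * (β ^ (2 * g + 1) * (hA hf hd η).det) := by ring
      rw [e5, ← e3, hdetA]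
      ring
    rw [div_pow, ← e4, ← pow_mul, show (g + 1) * 2 = 2 * g + 2 by ring]
    field_simp
  have hηne : η ≠ 0 := by
    intro h0
    rw [h0] at hη0
    rw [smul_zero] at hη0
    have e1 : (hA hf hd η₀).det ≠ 0 := by
      rw [hdetA]
      exact mul_ne_zero (pow_ne_zero 2 hK) hA'
    apply e1
    have e2 : hA hf hd η₀ = 0 := by
      rw [hη0]
      ext i j
      show tau hf hd (0 * _) = 0
      rw [zero_mul, map_zero]
    rw [e2]
    exact det_zero
  refine ⟨h, β, PJ.submatrix (es g).symm (es g).symm, ?_, ?_, hβ, ?_, ?_, ?_⟩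
  · refine IsCoprime.symm ?_
    rw [hi.coprime_iff_not_dvd]
    intro h0
    apply hηne
    rw [← hh]
    exact AdjoinRoot.mk_eq_zero.2 h0
  · rw [hh, hnorm]
    exact ⟨_, pow_two _⟩
  · rwa [det_submatrix_equiv_self]
  · have e1 : A = AJ.submatrix (es g).symm (es g).symm := by
      rw [hAJ, submatrix_submatrix]
      simp
    have e2 : quadA g f h = (cA hf hd η).submatrix (es g).symm (es g).symm := by
      rw [← hh, ← quadA_eq hf hd, submatrix_submatrix]
      simp
    rw [e1, e2, transpose_submatrix, submatrix_mul_equiv, submatrix_mul_equiv, hPA]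
    rfl
  · have e1 : B = BJ.submatrix (es g).symm (es g).symm := by
      rw [hBJ, submatrix_submatrix]
      simp
    have e2 : quadB g f h = (cB hf hd η).submatrix (es g).symm (es g).symm := by
      rw [← hh, ← quadB_eq hf hd, submatrix_submatrix]
      simp
    rw [e1, e2, transpose_submatrix, submatrix_mul_equiv, submatrix_mul_equiv, hPB]
    rfl

end ker

section bc

variable {k K : Type} [Field k] [Field K] (φ : k →+* K)

variable {g : ℕ} {f : k[X]} (hf : f.Monic) (hd : f.natDegree = 2 * g + 1)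

include hf hd in
/-- the local condition from a plane -/
theorem loc_map [Infinite k] [Infinite K] (h2c : (2 : K) ≠ 0) (hs : f.Separable) (h : k[X]) (hh : IsCoprime h f)
    (hN : IsSquare (Algebra.norm k (AdjoinRoot.mk f h)))
    (hP : HasPl g ((quadA g f h).map φ) ((quadB g f h).map φ)) :
    ∃ (l : List (K[X] × K[X])) (s : K[X]),
      (∀ p ∈ l, p.1.Monic ∧ IsCoprime p.1 (f.map φ) ∧ p.1 ∣ p.2 ^ 2 - f.map φ) ∧
      f.map φ ∣ h.map φ * (l.map fun p => (-1) ^ p.1.natDegree * p.1).prod - s ^ 2 := by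
  have hf' : (f.map φ).Monic := hf.map φ
  have hd' : (f.map φ).natDegree = 2 * g + 1 := by rw [hf.natDegree_map, hd]
  obtain ⟨n, hn⟩ := hN
  have hn0 : n ≠ 0 := by
    rintro rfl
    obtain ⟨q, hq⟩ := inv_of hh
    rw [map_mul] at hq
    have h1 := congrArg (Algebra.norm k) hq
    rw [map_mul, hn, map_one] at h1
    simp at h1
  rw [quadA_map φ g hf, quadB_map φ g hf] at hP
  refine loc_of_plane hf' hd' h2c hs.map.squarefree (h.map φ) (hh.map (mapRingHom φ)) (φ n)
    ?_ ?_ hP
  · rwa [Ne, map_eq_zero]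
  · rw [norm_map φ hf hd, hn, map_mul, pow_two]

end bc

end Pool.Agent.N844.PLF
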